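import Mathlib

/-!
# Project AS of helper16, job HOPF: Hopf's trick for periodic curves (helper57)
-/

set_option autoImplicit false

open Set Filter Topology MeasureTheory intervalIntegral

namespace Pool.Agent.J4H57.AS

/-- the logarithmic derivative of a closed curve -/
theorem closed_int {f f' : ℝ → ℂ} (h : ∀ t, HasDerivAt f (f' t) t) (hc : Continuous f')
    (h0 : ∀ t, f t ≠ 0) {a b : ℝ} (hab : f a = f b) :
    ∃ n : ℤ, ∫ t in a..b, f' t / f t = n * (2 * Real.pi * Complex.I) := by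
  have hfc : Continuous f := continuous_iff_continuousAt.2 fun t => (h t).continuousAt
  have hq : Continuous fun t => f' t / f t := hc.div hfc h0
  obtain ⟨P, hP⟩ : ∃ P : ℝ → ℂ, P = fun t => ∫ u in a..t, f' u / f u := ⟨_, rfl⟩
  have hPd : ∀ t, HasDerivAt P (f' t / f t) t := fun t => by
    rw [hP]
    exact integral_hasDerivAt_right (hq.intervalIntegrable _ _)
      (hq.stronglyMeasurableAtFilter _ _) hq.continuousAt
  have hF : ∀ t, HasDerivAt (fun t => Complex.exp (-P t) * f t) 0 t := fun t => by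
    have h1 := ((hPd t).neg.cexp).mul (h t)
    have h2 : Complex.exp (-P t) * -(f' t / f t) * f t + Complex.exp (-P t) * f' t = 0 := by
      have h3 : f' t / f t * f t = f' t := div_mul_cancel₀ _ (h0 t)
      linear_combination (-Complex.exp (-P t)) * h3
    rw [← h2]
    exact h1
  have hconst : ∀ x y, Complex.exp (-P x) * f x = Complex.exp (-P y) * f y :=
    is_const_of_deriv_eq_zero (fun t => (hF t).differentiableAt) fun t => (hF t).deriv
  have h1 := hconst b a
  have hPa : P a = 0 := by rw [hP]; exact integral_same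
  rw [hPa, neg_zero, Complex.exp_zero, one_mul, hab] at h1
  have h2 : Complex.exp (-P b) = 1 := by
    have : (Complex.exp (-P b) - 1) * f b = 0 := by rw [sub_mul, h1, one_mul, sub_self]
    exact sub_eq_zero.1 ((mul_eq_zero.1 this).resolve_right (h0 b))
  obtain ⟨n, hn⟩ := Complex.exp_eq_one_iff.1 h2
  refine ⟨-n, ?_⟩
  have h3 : P b = -(n * (2 * Real.pi * Complex.I)) := by rw [← hn, neg_neg]
  have h4 : ∫ t in a..b, f' t / f t = P b := by rw [hP]
  rw [h4, h3]
  push_cast
  ring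

/-- a continuous function with values in `2πi ℤ` -/
theorem const_of_int {W : ℝ → ℂ} (hW : Continuous W)
    (h : ∀ s, ∃ n : ℤ, W s = n * (2 * Real.pi * Complex.I)) (x y : ℝ) : W x = W y := by
  choose n hn using h
  have hpi : (2 * Real.pi * Complex.I : ℂ) ≠ 0 := by
    simp [Real.pi_ne_zero]
  have h1 : ∀ s, (n s : ℝ) = (W s / (2 * Real.pi * Complex.I)).re := fun s => by
    rw [hn s, mul_div_cancel_right₀ _ hpi]
    simp
  have hc : Continuous fun s => (n s : ℝ) := by
    have : (fun s => (n s : ℝ)) = fun s => (W s / (2 * Real.pi * Complex.I)).re := funext h1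
    rw [this]
    exact Complex.continuous_re.comp (hW.div_const _)
  have key : ∀ x y, n x = n y := by
    have hnc : Continuous n := Int.isClosedEmbedding_coe_real.isEmbedding.continuous_iff.2 hc
    intro x y
    exact PreconnectedSpace.constant inferInstance hnc
  rw [hn x, hn y, key x y]

theorem hopf_curve {g g1 g2 : ℝ → ℂ} {b : ℂ} (hb : b ≠ 0) (h1 : ∀ θ, HasDerivAt g (g1 θ) θ)
    (h2 : ∀ θ, HasDerivAt g1 (g2 θ) θ) (hc : Continuous g2)
    (hp : ∀ θ, g (θ + 2 * Real.pi) = g θ + b) (hne : ∀ θ, g1 θ ≠ 0)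
    (hinj : ∀ θ s, 0 < s → s < 2 * Real.pi → g (θ + s) ≠ g θ) :
    ∫ θ in (0 : ℝ)..2 * Real.pi, g2 θ / g1 θ = 0 := by
  have hpi : 0 < 2 * Real.pi := by positivity
  have hc1 : Continuous g1 := continuous_iff_continuousAt.2 fun t => (h2 t).continuousAt
  have hp1 : ∀ θ, g1 (θ + 2 * Real.pi) = g1 θ := fun θ => by
    have e1 : HasDerivAt (fun θ => g (θ + 2 * Real.pi)) (g1 (θ + 2 * Real.pi)) θ :=
      (h1 (θ + 2 * Real.pi)).comp_add_const θ (2 * Real.pi)
    have e2 : HasDerivAt (fun θ => g (θ + 2 * Real.pi)) (g1 θ) θ := by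
      have : (fun θ => g (θ + 2 * Real.pi)) = fun θ => g θ + b := funext hp
      rw [this]
      exact (h1 θ).add_const b
    exact e1.unique e2
  obtain ⟨K, hK⟩ : ∃ K : ℝ → ℝ → ℂ, K = fun θ s => ∫ t in (0 : ℝ)..1, g1 (θ + s * t) := ⟨_, rfl⟩
  obtain ⟨L, hL⟩ : ∃ L : ℝ → ℝ → ℂ, L = fun θ s => ∫ t in (0 : ℝ)..1, g2 (θ + s * t) := ⟨_, rfl⟩
  have hKs : ∀ θ s : ℝ, (s : ℂ) * K θ s = g (θ + s) - g θ := fun θ s => by
    have e1 := smul_integral_comp_add_mul (a := 0) (b := 1) g1 s θ
    rw [mul_zero, mul_one, add_zero, integral_eq_sub_of_hasDerivAt (fun x _ => h1 x)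
      (hc1.intervalIntegrable _ _), Complex.real_smul] at e1
    rw [hK]
    exact e1
  have hLs : ∀ θ s : ℝ, (s : ℂ) * L θ s = g1 (θ + s) - g1 θ := fun θ s => by
    have e1 := smul_integral_comp_add_mul (a := 0) (b := 1) g2 s θ
    rw [mul_zero, mul_one, add_zero, integral_eq_sub_of_hasDerivAt (fun x _ => h2 x)
      (hc.intervalIntegrable _ _), Complex.real_smul] at e1
    rw [hL]
    exact e1
  have hK0 : ∀ θ, K θ 0 = g1 θ := fun θ => by rw [hK]; simp
  have hL0 : ∀ θ, L θ 0 = g2 θ := fun θ => by rw [hL]; simp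
  have hKd : ∀ s θ, HasDerivAt (fun θ => K θ s) (L θ s) θ := by
    intro s θ
    rcases eq_or_ne s 0 with rfl | hs
    · have : (fun θ => K θ 0) = g1 := funext hK0
      rw [this, hL0]
      exact h2 θ
    · have hs' : (s : ℂ) ≠ 0 := by exact_mod_cast hs
      have e1 : (fun θ => K θ s) = fun θ => (g (θ + s) - g θ) / s := by
        funext θ
        rw [← hKs, mul_div_cancel_left₀ _ hs']
      have e2 : L θ s = (g1 (θ + s) - g1 θ) / s := by rw [← hLs, mul_div_cancel_left₀ _ hs']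
      rw [e1, e2]
      exact (((h1 (θ + s)).comp_add_const θ s).sub (h1 θ)).div_const _
  have hKc : Continuous fun p : ℝ × ℝ => K p.1 p.2 := by
    rw [hK]
    exact continuous_parametric_intervalIntegral_of_continuous' (f := fun (p : ℝ × ℝ) t => g1 (p.1 + p.2 * t))
      (by fun_prop) 0 1
  have hLc : Continuous fun p : ℝ × ℝ => L p.1 p.2 := by
    rw [hL]
    exact continuous_parametric_intervalIntegral_of_continuous' (f := fun (p : ℝ × ℝ) t => g2 (p.1 + p.2 * t))
      (by fun_prop) 0 1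
  have hKne : ∀ θ s, 0 ≤ s → s ≤ 2 * Real.pi → K θ s ≠ 0 := by
    intro θ s hs0 hs1 h0
    rcases eq_or_lt_of_le hs0 with rfl | hs0
    · rw [hK0] at h0
      exact hne θ h0
    · have e1 := hKs θ s
      rw [h0, mul_zero] at e1
      rcases eq_or_lt_of_le hs1 with rfl | hs1
      · rw [hp, add_sub_cancel_left] at e1
        exact hb e1.symm
      · exact hinj θ s hs0 hs1 (sub_eq_zero.1 e1.symm)
  have hKp : ∀ s, K 0 s = K (2 * Real.pi) s := by
    intro s
    rw [hK]
    apply integral_congr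
    intro t _
    show g1 (0 + s * t) = g1 (2 * Real.pi + s * t)
    rw [zero_add, add_comm, hp1]
  obtain ⟨c, hcdef⟩ : ∃ c : ℝ → ℝ, c = fun s => max 0 (min s (2 * Real.pi)) := ⟨_, rfl⟩
  have hcc : Continuous c := by rw [hcdef]; fun_prop
  have hc0 : ∀ s, 0 ≤ c s := fun s => by rw [hcdef]; exact le_max_left _ _
  have hc2 : ∀ s, c s ≤ 2 * Real.pi := fun s => by
    rw [hcdef]; exact max_le hpi.le (min_le_right _ _)
  obtain ⟨W, hW⟩ : ∃ W : ℝ → ℂ, W = fun s => ∫ θ in (0 : ℝ)..2 * Real.pi, L θ (c s) / K θ (c s) :=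
    ⟨_, rfl⟩
  have hWc : Continuous W := by
    rw [hW]
    apply continuous_parametric_intervalIntegral_of_continuous' (f := fun s θ => L θ (c s) / K θ (c s))
    apply Continuous.div
    · exact hLc.comp (continuous_snd.prodMk (hcc.comp continuous_fst))
    · exact hKc.comp (continuous_snd.prodMk (hcc.comp continuous_fst))
    · intro p
      exact hKne _ _ (hc0 _) (hc2 _)
  have hWi : ∀ s, ∃ n : ℤ, W s = n * (2 * Real.pi * Complex.I) := by
    intro s
    rw [hW]
    exact closed_int (fun θ => hKd (c s) θ) (hLc.comp (continuous_id.prodMk continuous_const))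
      (fun θ => hKne _ _ (hc0 _) (hc2 _)) (hKp (c s))
  have hfin := const_of_int hWc hWi 0 (2 * Real.pi)
  have hcz : c 0 = 0 := by rw [hcdef]; simp [hpi.le]
  have hct : c (2 * Real.pi) = 2 * Real.pi := by rw [hcdef]; simp [hpi.le]
  have hW0 : W 0 = ∫ θ in (0 : ℝ)..2 * Real.pi, g2 θ / g1 θ := by
    rw [hW]
    simp only [hcz, hK0, hL0]
  have hW2 : W (2 * Real.pi) = 0 := by
    rw [hW]
    simp only [hct]
    have : ∀ θ, L θ (2 * Real.pi) = 0 := fun θ => by
      have e1 := hLs θ (2 * Real.pi)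
      rw [hp1, sub_self] at e1
      refine (mul_eq_zero.1 e1).resolve_left ?_
      exact_mod_cast hpi.ne'
    simp [this]
  rw [← hW0, hfin, hW2]

theorem hopf (H : ℂ → ℂ) (δ : ℝ) (b : ℂ) (hδ : 0 < δ) (hb : b ≠ 0)
    (hH : DifferentiableOn ℂ H {w : ℂ | |w.re| < δ})
    (hper : ∀ w ∈ {w : ℂ | |w.re| < δ}, H (w + 2 * Real.pi * Complex.I) = H w + b)
    (hd : ∀ w ∈ {w : ℂ | |w.re| < δ}, deriv H w ≠ 0)
    (hinj : ∀ θ s : ℝ, 0 < s → s < 2 * Real.pi →
      H (Complex.I * (θ + s : ℝ)) ≠ H (Complex.I * (θ : ℝ))) :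
    ∫ θ in (0 : ℝ)..2 * Real.pi, deriv (deriv H) (Complex.I * (θ : ℝ)) /
      deriv H (Complex.I * (θ : ℝ)) = 0 := by
  have hopen : IsOpen {w : ℂ | |w.re| < δ} := isOpen_lt (by fun_prop) continuous_const
  have hmem : ∀ θ : ℝ, Complex.I * (θ : ℂ) ∈ {w : ℂ | |w.re| < δ} := fun θ => by
    simp [hδ]
  have hH1 : DifferentiableOn ℂ (deriv H) {w : ℂ | |w.re| < δ} := hH.deriv hopen
  have hH2 : DifferentiableOn ℂ (deriv (deriv H)) {w : ℂ | |w.re| < δ} := hH1.deriv hopen
  have hline : ∀ θ : ℝ, HasDerivAt (fun θ : ℝ => Complex.I * (θ : ℂ)) Complex.I θ := fun θ => by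
    have := (Complex.ofRealCLM.hasDerivAt (x := θ)).const_mul Complex.I
    simpa using this
  have d1 : ∀ θ : ℝ, HasDerivAt (fun θ : ℝ => H (Complex.I * (θ : ℂ)))
      (deriv H (Complex.I * (θ : ℂ)) * Complex.I) θ := fun θ =>
    HasDerivAt.comp θ ((hH.differentiableAt (hopen.mem_nhds (hmem θ))).hasDerivAt) (hline θ)
  have d2 : ∀ θ : ℝ, HasDerivAt (fun θ : ℝ => deriv H (Complex.I * (θ : ℂ)) * Complex.I)
      (deriv (deriv H) (Complex.I * (θ : ℂ)) * Complex.I * Complex.I) θ := fun θ =>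
    (HasDerivAt.comp θ ((hH1.differentiableAt (hopen.mem_nhds (hmem θ))).hasDerivAt)
      (hline θ)).mul_const _
  have hcont : Continuous fun θ : ℝ => deriv (deriv H) (Complex.I * (θ : ℂ)) * Complex.I * Complex.I := by
    apply Continuous.mul _ continuous_const
    apply Continuous.mul _ continuous_const
    exact hH2.continuousOn.comp_continuous (by fun_prop) hmem
  have h := hopf_curve (g := fun θ : ℝ => H (Complex.I * (θ : ℂ))) hb d1 d2 hcont ?_ ?_ ?_
  · have e1 : ∀ θ : ℝ, deriv (deriv H) (Complex.I * (θ : ℂ)) * Complex.I * Complex.I /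
        (deriv H (Complex.I * (θ : ℂ)) * Complex.I) =
        deriv (deriv H) (Complex.I * (θ : ℂ)) / deriv H (Complex.I * (θ : ℂ)) * Complex.I :=
      fun θ => by
        have := hd _ (hmem θ)
        field_simp
    simp only [e1] at h
    rw [intervalIntegral.integral_mul_const] at h
    exact (mul_eq_zero.1 h).resolve_right Complex.I_ne_zero
  · intro θ
    show H (Complex.I * ((θ + 2 * Real.pi : ℝ) : ℂ)) = H (Complex.I * (θ : ℂ)) + b
    rw [← hper _ (hmem θ)]
    congr 1
    push_cast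
    ring
  · intro θ
    exact mul_ne_zero (hd _ (hmem θ)) Complex.I_ne_zero
  · intro θ s hs0 hs1
    exact hinj θ s hs0 hs1

end Pool.Agent.J4H57.AS
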