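import Mathlib

/-!
# Project AS of helper16, jobs GAPD, PACK, NULL, INT, CONN: thin sets (helper57)

The definitions are those of `J4H16/AS/Defs.lean`.
-/

set_option autoImplicit false

open Set Filter Topology Metric MeasureTheory

namespace Pool.Agent.J4H57.AS

/-- as `Pool.Agent.J4H16.AS.Thin` -/
def Thin (S : Set ℂ) (C s : ℝ) : Prop :=
  ∀ (a : ℂ) (R ε : ℝ), 0 < ε → ε ≤ R → R ≤ 1 → ∀ F : Finset ℂ,
    (∀ p ∈ F, p ∈ S ∧ ‖p - a‖ < R) → (∀ p ∈ F, ∀ q ∈ F, p ≠ q → ε ≤ ‖p - q‖) →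
      (F.card : ℝ) ≤ C * (R / ε) ^ s

/-- as `Pool.Agent.J4H16.AS.Pack` -/
def Pack (L : Set ℂ) (s : ℝ) : Prop :=
  ∀ R : ℝ, 0 < R → ∃ C : ℝ, 0 < C ∧ ∀ ε : ℝ, 0 < ε → ε ≤ 1 → ∀ F : Finset ℂ,
    (∀ p ∈ F, p ∈ L ∧ ‖p‖ < R) → (∀ p ∈ F, ∀ q ∈ F, p ≠ q → ε ≤ ‖p - q‖) →
      (F.card : ℝ) ≤ C * (1 / ε) ^ s

/-- as `Pool.Agent.J4H16.AS.Lim` -/
def Lim (U : Ultrafilter ℕ) (s : ℕ → ℝ) (S : Set ℂ) : Set ℂ :=
  {Z | ∀ d : ℝ, 0 < d → ∀ᶠ j in (U : Filter ℕ), ∃ p ∈ S, ‖p - s j * Z‖ < s j * d}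

theorem exists_M (C s : ℝ) (_hs : 0 < s) (hs1 : s < 1) :
    ∃ M : ℕ, 1 ≤ M ∧ C * (4 * M) ^ s < M := by
  have h1 : Tendsto (fun x : ℝ => x ^ (1 - s)) atTop atTop := tendsto_rpow_atTop (by linarith)
  have h2 : Tendsto (fun M : ℕ => (M : ℝ) ^ (1 - s)) atTop atTop :=
    h1.comp tendsto_natCast_atTop_atTop
  obtain ⟨M, hM, hM1⟩ := ((h2.eventually_gt_atTop (C * 4 ^ s)).and (eventually_ge_atTop 1)).exists
  refine ⟨M, hM1, ?_⟩
  have hM0 : (0 : ℝ) < M := by exact_mod_cast hM1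
  rw [Real.mul_rpow (by norm_num) hM0.le, ← mul_assoc]
  calc C * 4 ^ s * (M : ℝ) ^ s < (M : ℝ) ^ (1 - s) * (M : ℝ) ^ s :=
        mul_lt_mul_of_pos_right hM (Real.rpow_pos_of_pos hM0 _)
    _ = M := by rw [← Real.rpow_add hM0, sub_add_cancel, Real.rpow_one]

theorem gapd (S : Set ℂ) (C s : ℝ) (hs : 0 < s) (hs1 : s < 1) (hT : Thin S C s) :
    ∃ ε0 : ℝ, 0 < ε0 ∧ ε0 ≤ 1 ∧ ∀ (a : ℂ) (t : ℝ), 0 < t → 8 * t ≤ 1 →
      ∃ η : ℝ, 2 * t ≤ η ∧ η ≤ 4 * t ∧ ∀ p ∈ S, ¬ (η < ‖p - a‖ ∧ ‖p - a‖ < (1 + ε0) * η) := by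
  obtain ⟨M, hM1, hM⟩ := exists_M C s hs hs1
  have hM0 : (0 : ℝ) < M := by exact_mod_cast hM1
  have hM1' : (1 : ℝ) ≤ M := by exact_mod_cast hM1
  refine ⟨1 / (4 * M), by positivity, ?_, ?_⟩
  · rw [div_le_one (by positivity)]
    linarith
  intro a t ht ht8
  by_contra hcon
  push Not at hcon
  -- a point in every second annulus
  have hpt : ∀ k : Fin M, ∃ p ∈ S, 2 * t * (1 + 2 * (k : ℕ) / (2 * M)) < ‖p - a‖ ∧
      ‖p - a‖ < 2 * t * (1 + (2 * (k : ℕ) + 1) / (2 * M)) := by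
    intro k
    have hk : ((k : ℕ) : ℝ) + 1 ≤ M := by exact_mod_cast k.2
    have hk0 : (0 : ℝ) ≤ ((k : ℕ) : ℝ) := Nat.cast_nonneg _
    have h1 : (0 : ℝ) ≤ 2 * (k : ℕ) / (2 * M) := by positivity
    have h2 : 2 * ((k : ℕ) : ℝ) / (2 * M) ≤ 1 := by
      rw [div_le_one (by positivity)]
      linarith
    obtain ⟨p, hp, hp1, hp2⟩ := hcon (2 * t * (1 + 2 * (k : ℕ) / (2 * M)))
      (by nlinarith) (by nlinarith)
    refine ⟨p, hp, hp1, hp2.trans_le ?_⟩
    have h3 : (1 + 1 / (4 * (M : ℝ))) * (2 * t * (1 + 2 * (k : ℕ) / (2 * M))) =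
        2 * t * ((1 + 2 * (k : ℕ) / (2 * M)) + (1 + 2 * (k : ℕ) / (2 * M)) / (4 * M)) := by ring
    rw [h3]
    apply mul_le_mul_of_nonneg_left _ (by positivity)
    have h4 : (1 + 2 * ((k : ℕ) : ℝ) / (2 * M)) / (4 * M) ≤ 1 / (2 * M) := by
      rw [div_le_div_iff₀ (by positivity) (by positivity)]
      nlinarith
    have h5 : (2 * ((k : ℕ) : ℝ) + 1) / (2 * M) = 2 * (k : ℕ) / (2 * M) + 1 / (2 * M) := by
      rw [add_div]
    rw [h5]
    linarith
  choose p hpS hp1 hp2 using hpt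
  have hsep : ∀ k k' : Fin M, k < k' → 2 * t / (2 * M) ≤ ‖p k' - p k‖ := by
    intro k k' hkk
    have hk : (((k : ℕ) : ℝ)) + 1 ≤ ((k' : ℕ) : ℝ) := by exact_mod_cast hkk
    have h1 := hp2 k
    have h2 := hp1 k'
    have h3 : ‖p k' - a‖ - ‖p k - a‖ ≤ ‖p k' - p k‖ := by
      have := norm_sub_norm_le (p k' - a) (p k - a)
      rwa [sub_sub_sub_cancel_right] at this
    have h4 : 2 * t / (2 * M) ≤ 2 * t * (1 + 2 * ((k' : ℕ) : ℝ) / (2 * M)) -
        2 * t * (1 + (2 * ((k : ℕ) : ℝ) + 1) / (2 * M)) := by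
      have h5 : 2 * t * (1 + 2 * ((k' : ℕ) : ℝ) / (2 * M)) -
        2 * t * (1 + (2 * ((k : ℕ) : ℝ) + 1) / (2 * M)) =
          2 * t * (2 * ((k' : ℕ) : ℝ) - 2 * ((k : ℕ) : ℝ) - 1) / (2 * M) := by ring
      rw [h5]
      apply div_le_div_of_nonneg_right _ (by positivity)
      nlinarith
    linarith
  have hε : 0 < 2 * t / (2 * M) := by positivity
  have hsep' : ∀ k k' : Fin M, k ≠ k' → 2 * t / (2 * M) ≤ ‖p k' - p k‖ := by
    intro k k' hne
    rcases lt_or_gt_of_ne hne with h | h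
    · exact hsep k k' h
    · rw [norm_sub_rev]
      exact hsep k' k h
  have hinj : Function.Injective p := by
    intro k k' h
    by_contra hne
    have h1 := hsep' k k' hne
    rw [h, sub_self, norm_zero] at h1
    linarith
  have h1 := hT a (4 * t) (2 * t / (2 * M)) hε (by
      rw [div_le_iff₀ (by positivity)]
      nlinarith) (by linarith) (Finset.univ.image p) (by
      intro q hq
      obtain ⟨k, -, rfl⟩ := Finset.mem_image.1 hq
      refine ⟨hpS k, (hp2 k).trans_le ?_⟩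
      have hk : ((k : ℕ) : ℝ) + 1 ≤ M := by exact_mod_cast k.2
      have h2 : (2 * ((k : ℕ) : ℝ) + 1) / (2 * M) ≤ 1 := by
        rw [div_le_one (by positivity)]
        linarith
      nlinarith) (by
      intro q hq q' hq' hne
      obtain ⟨k, -, rfl⟩ := Finset.mem_image.1 hq
      obtain ⟨k', -, rfl⟩ := Finset.mem_image.1 hq'
      have : k' ≠ k := fun h => hne (by rw [h])
      exact hsep' k' k this)
  rw [Finset.card_image_of_injective _ hinj, Finset.card_univ, Fintype.card_fin] at h1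
  have h2 : 4 * t / (2 * t / (2 * M)) = 4 * M := by
    field_simp
  rw [h2] at h1
  linarith

theorem pack (U : Ultrafilter ℕ) (σ : ℕ → ℝ) (S : Set ℂ) (C s : ℝ) (hs : 0 < s) (_hs1 : s < 1)
    (hT : Thin S C s) (hσ : ∀ j, 0 < σ j) (hσ0 : Tendsto σ U (𝓝 0)) :
    IsClosed (Lim U σ S) ∧ Pack (Lim U σ S) s := by
  classical
  constructor
  · rw [← closure_subset_iff_isClosed]
    intro Z hZ d hd
    obtain ⟨Z', hZ', hZZ⟩ := Metric.mem_closure_iff.1 hZ (d / 2) (by positivity)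
    filter_upwards [hZ' (d / 2) (by positivity)] with j hj
    obtain ⟨p, hp, hpj⟩ := hj
    refine ⟨p, hp, ?_⟩
    have h1 : p - σ j * Z = (p - σ j * Z') + σ j * (Z' - Z) := by ring
    rw [h1]
    refine (norm_add_le _ _).trans_lt ?_
    have h2 : ‖(σ j : ℂ) * (Z' - Z)‖ < σ j * (d / 2) := by
      rw [norm_mul, Complex.norm_real, Real.norm_of_nonneg (hσ j).le]
      apply mul_lt_mul_of_pos_left _ (hσ j)
      rw [← dist_eq_norm, dist_comm]
      exact hZZ
    calc _ < σ j * (d / 2) + σ j * (d / 2) := add_lt_add hpj h2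
      _ = σ j * d := by ring
  · intro R hR
    refine ⟨(|C| + 1) * (2 * (R + 1)) ^ s, by positivity, ?_⟩
    intro ε hε hε1 F hF hsep
    have h1 : ∀ᶠ j in (U : Filter ℕ), ∀ Z ∈ F, ∃ p ∈ S, ‖p - σ j * Z‖ < σ j * (ε / 4) := by
      rw [Filter.eventually_all_finset]
      intro Z hZ
      exact (hF Z hZ).1 (ε / 4) (by positivity)
    have h2 : ∀ᶠ j in (U : Filter ℕ), σ j < 1 / (R + 1) :=
      hσ0.eventually_lt_const (by positivity)
    obtain ⟨j, hj1, hj2⟩ := (h1.and h2).exists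
    choose! p hpS hp using hj1
    have hσj := hσ j
    have hRj : σ j * (R + 1) ≤ 1 := by
      rw [lt_div_iff₀ (by positivity)] at hj2
      exact hj2.le
    have hsepp : ∀ Z ∈ F, ∀ Z' ∈ F, Z ≠ Z' → σ j * ε / 2 ≤ ‖p Z - p Z'‖ := by
      intro Z hZ Z' hZ' hne
      have e1 := hsep Z hZ Z' hZ' hne
      have e2 := hp Z hZ
      have e3 := hp Z' hZ'
      have e4 : (σ j : ℂ) * (Z - Z') = (p Z - p Z') - (p Z - σ j * Z) + (p Z' - σ j * Z') := by ring
      have e5 : σ j * ε ≤ ‖(σ j : ℂ) * (Z - Z')‖ := by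
        rw [norm_mul, Complex.norm_real, Real.norm_of_nonneg hσj.le]
        exact mul_le_mul_of_nonneg_left e1 hσj.le
      rw [e4] at e5
      have e6 : ‖(p Z - p Z') - (p Z - σ j * Z) + (p Z' - σ j * Z')‖ ≤
          ‖p Z - p Z'‖ + ‖p Z - σ j * Z‖ + ‖p Z' - σ j * Z'‖ :=
        (norm_add_le _ _).trans (add_le_add_left (norm_sub_le _ _) _)
      linarith
    have hinj : Set.InjOn p F := by
      intro Z hZ Z' hZ' h
      by_contra hne
      have := hsepp Z hZ Z' hZ' hne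
      rw [h, sub_self, norm_zero] at this
      have : 0 < σ j * ε / 2 := by positivity
      linarith
    have h3 := hT 0 (σ j * (R + 1)) (σ j * ε / 2) (by positivity) (by nlinarith) hRj (F.image p) (by
        intro q hq
        obtain ⟨Z, hZ, rfl⟩ := Finset.mem_image.1 hq
        refine ⟨hpS Z hZ, ?_⟩
        rw [sub_zero]
        have e1 := hp Z hZ
        have e2 : ‖p Z‖ ≤ ‖p Z - σ j * Z‖ + ‖(σ j : ℂ) * Z‖ := by
          have := norm_add_le (p Z - σ j * Z) ((σ j : ℂ) * Z)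
          rwa [sub_add_cancel] at this
        have e3 : ‖(σ j : ℂ) * Z‖ ≤ σ j * R := by
          rw [norm_mul, Complex.norm_real, Real.norm_of_nonneg hσj.le]
          exact mul_le_mul_of_nonneg_left (hF Z hZ).2.le hσj.le
        nlinarith) (by
        intro q hq q' hq' hne
        obtain ⟨Z, hZ, rfl⟩ := Finset.mem_image.1 hq
        obtain ⟨Z', hZ', rfl⟩ := Finset.mem_image.1 hq'
        exact hsepp Z hZ Z' hZ' fun h => hne (by rw [h]))
    rw [Finset.card_image_of_injOn hinj] at h3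
    have h4 : σ j * (R + 1) / (σ j * ε / 2) = 2 * (R + 1) * (1 / ε) := by
      field_simp
    rw [h4, Real.mul_rpow (by positivity) (by positivity)] at h3
    refine h3.trans ?_
    rw [← mul_assoc]
    apply mul_le_mul_of_nonneg_right _ (by positivity)
    apply mul_le_mul_of_nonneg_right _ (by positivity)
    linarith [le_abs_self C]

/-- finite nets -/
theorem exists_net {L : Set ℂ} {s : ℝ} (hP : Pack L s) {R : ℝ} (hR : 0 < R) :
    ∃ C : ℝ, 0 < C ∧ ∀ ε : ℝ, 0 < ε → ε ≤ 1 → ∃ F : Finset ℂ, (F.card : ℝ) ≤ C * (1 / ε) ^ s ∧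
      L ∩ ball 0 R ⊆ ⋃ p ∈ F, ball p ε := by
  classical
  obtain ⟨C, hC, h⟩ := hP R hR
  refine ⟨C, hC, fun ε hε hε1 => ?_⟩
  -- a separated set of maximal cardinality
  let A : Set ℕ := {m | ∃ F : Finset ℂ, F.card = m ∧ (∀ p ∈ F, p ∈ L ∧ ‖p‖ < R) ∧
    ∀ p ∈ F, ∀ q ∈ F, p ≠ q → ε ≤ ‖p - q‖}
  have hA : BddAbove A := by
    refine ⟨⌊C * (1 / ε) ^ s⌋₊, ?_⟩
    rintro m ⟨F, rfl, hF1, hF2⟩
    exact Nat.le_floor (h ε hε hε1 F hF1 hF2)
  have hA0 : A.Nonempty := ⟨0, ∅, rfl, by simp, by simp⟩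
  obtain ⟨F, hFc, hF1, hF2⟩ := Nat.sSup_mem hA0 hA
  refine ⟨F, h ε hε hε1 F hF1 hF2, ?_⟩
  rintro z ⟨hzL, hzR⟩
  by_contra hz
  simp only [mem_iUnion, exists_prop, not_exists, not_and, mem_ball, not_lt] at hz
  have hzF : z ∉ F := fun hzF => by
    have := hz z hzF
    rw [dist_self] at this
    linarith
  have h1 : F.card + 1 ∈ A := by
    refine ⟨insert z F, Finset.card_insert_of_notMem hzF, ?_, ?_⟩
    · intro p hp
      rcases Finset.mem_insert.1 hp with rfl | hp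
      · exact ⟨hzL, by rwa [mem_ball_zero_iff] at hzR⟩
      · exact hF1 p hp
    · intro p hp q hq hne
      rcases Finset.mem_insert.1 hp with rfl | hp'
      · rcases Finset.mem_insert.1 hq with rfl | hq'
        · exact absurd rfl hne
        · rw [← dist_eq_norm]
          exact hz q hq'
      · rcases Finset.mem_insert.1 hq with rfl | hq'
        · rw [norm_sub_rev, ← dist_eq_norm]
          exact hz p hp'
        · exact hF2 p hp' q hq' hne
  have h2 := le_csSup hA h1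
  rw [← hFc] at h2
  omega

theorem null (L : Set ℂ) (s : ℝ) (_hs : 0 < s) (hs1 : s < 1) (hP : Pack L s) (f : ℂ → ℝ)
    (hf : LipschitzWith 1 f) : volume (f '' L) = 0 := by
  have key : ∀ R : ℝ, 0 < R → volume (f '' (L ∩ ball 0 R)) = 0 := by
    intro R hR
    obtain ⟨C, hC, hnet⟩ := exists_net hP hR
    have hb : ∀ ε : ℝ, 0 < ε → ε ≤ 1 →
        volume (f '' (L ∩ ball 0 R)) ≤ ENNReal.ofReal (C * (1 / ε) ^ s * (2 * ε)) := by
      intro ε hε hε1
      obtain ⟨F, hF, hcov⟩ := hnet ε hε hε1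
      have h1 : f '' (L ∩ ball 0 R) ⊆ ⋃ p ∈ F, ball (f p) ε := by
        rintro _ ⟨z, hz, rfl⟩
        obtain ⟨p, hp⟩ := mem_iUnion.1 (hcov hz)
        obtain ⟨hpF, hzp⟩ := mem_iUnion.1 hp
        refine mem_iUnion.2 ⟨p, mem_iUnion.2 ⟨hpF, ?_⟩⟩
        rw [mem_ball] at hzp ⊢
        have := hf.dist_le_mul z p
        rw [NNReal.coe_one, one_mul] at this
        linarith
      calc volume (f '' (L ∩ ball 0 R)) ≤ volume (⋃ p ∈ F, ball (f p) ε) := measure_mono h1
        _ ≤ ∑ p ∈ F, volume (ball (f p) ε) := measure_biUnion_finset_le _ _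
        _ = ∑ p ∈ F, ENNReal.ofReal (2 * ε) := by simp only [Real.volume_ball]
        _ = ENNReal.ofReal (F.card * (2 * ε)) := by
            rw [Finset.sum_const, nsmul_eq_mul, ENNReal.ofReal_mul (Nat.cast_nonneg _),
              ENNReal.ofReal_natCast]
        _ ≤ _ := ENNReal.ofReal_le_ofReal (mul_le_mul_of_nonneg_right hF (by positivity))
    have hlim : Tendsto (fun ε : ℝ => ENNReal.ofReal (C * (1 / ε) ^ s * (2 * ε))) (𝓝[>] 0)
        (𝓝 0) := by
      rw [← ENNReal.ofReal_zero]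
      apply ENNReal.tendsto_ofReal
      have h1 : Tendsto (fun ε : ℝ => 2 * C * ε ^ (1 - s)) (𝓝[>] 0) (𝓝 0) := by
        have h2 : Tendsto (fun ε : ℝ => ε ^ (1 - s)) (𝓝[>] 0) (𝓝 0) := by
          have h3 := (Real.continuousAt_rpow_const 0 (1 - s) (Or.inr (by linarith))).tendsto
          rw [Real.zero_rpow (by linarith)] at h3
          exact h3.mono_left nhdsWithin_le_nhds
        have h3 := h2.const_mul (2 * C)
        rwa [mul_zero] at h3
      refine h1.congr' ?_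
      filter_upwards [self_mem_nhdsWithin] with ε hε
      have hε0 : (0 : ℝ) < ε := hε
      rw [one_div, Real.inv_rpow hε0.le, Real.rpow_sub hε0, Real.rpow_one]
      field_simp
    refine le_antisymm (ge_of_tendsto hlim ?_) zero_le
    filter_upwards [Ioc_mem_nhdsGT (zero_lt_one : (0 : ℝ) < 1)] with ε hε
    exact hb ε hε.1 hε.2
  have h1 : f '' L ⊆ ⋃ n : ℕ, f '' (L ∩ ball 0 (n + 1)) := by
    rintro _ ⟨z, hz, rfl⟩
    obtain ⟨n, hn⟩ := exists_nat_gt ‖z‖
    refine mem_iUnion.2 ⟨n, z, ⟨hz, ?_⟩, rfl⟩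
    rw [mem_ball_zero_iff]
    linarith
  refine measure_mono_null h1 (measure_iUnion_null fun n => key _ (by positivity))

theorem conn (L : Set ℂ) (hL : IsClosed L)
    (hnull : ∀ f : ℂ → ℝ, LipschitzWith 1 f → volume (f '' L) = 0) (V : Set ℂ) (hV : IsOpen V)
    (hconv : Convex ℝ V) : IsPreconnected (V \ L) := by
  apply isPreconnected_of_forall_pair
  intro Z hZ Z' hZ'
  rcases eq_or_ne Z Z' with rfl | hne
  · exact ⟨{Z}, by simpa using hZ, rfl, rfl, isPreconnected_singleton⟩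
  have hopen : IsOpen (V \ L) := hV.sdiff hL
  obtain ⟨δ1, hδ1, hb1⟩ := Metric.isOpen_iff.1 hopen Z hZ
  obtain ⟨δ2, hδ2, hb2⟩ := Metric.isOpen_iff.1 hopen Z' hZ'
  obtain ⟨δ, hδ⟩ : ∃ δ, δ = min δ1 δ2 := ⟨_, rfl⟩
  have hδ0 : 0 < δ := by rw [hδ]; exact lt_min hδ1 hδ2
  have hd : Z' - Z ≠ 0 := sub_ne_zero.2 hne.symm
  have hdn : 0 < ‖Z' - Z‖ := norm_pos_iff.2 hd
  obtain ⟨u, hu⟩ : ∃ u : ℂ, u = Complex.I * (Z' - Z) / ‖Z' - Z‖ := ⟨_, rfl⟩
  have hun : ‖u‖ = 1 := by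
    rw [hu, norm_div, norm_mul, Complex.norm_I, one_mul, Complex.norm_real, norm_norm,
      div_self hdn.ne']
  obtain ⟨f, hf⟩ : ∃ f : ℂ → ℝ, f = fun w => (w * (starRingEnd ℂ) u).re := ⟨_, rfl⟩
  have hfadd : ∀ x y, f (x + y) = f x + f y := fun x y => by
    rw [hf]; simp only [add_mul, Complex.add_re]
  have hfsub : ∀ x y, f (x - y) = f x - f y := fun x y => by
    rw [hf]; simp only [sub_mul, Complex.sub_re]
  have hfreal : ∀ (r : ℝ) x, f (r • x) = r * f x := fun r x => by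
    rw [hf]
    simp only [Complex.real_smul, mul_assoc, Complex.re_ofReal_mul]
  have hfu : f u = 1 := by
    rw [hf]
    simp only [Complex.mul_conj, Complex.normSq_eq_norm_sq, hun, one_pow, Complex.ofReal_one,
      Complex.one_re]
  have hfd : f (Z' - Z) = 0 := by
    rw [hf, hu]
    simp only [map_div₀, map_mul, Complex.conj_I, Complex.conj_ofReal]
    have h1 : (Z' - Z) * (-Complex.I * (starRingEnd ℂ) (Z' - Z) / (‖Z' - Z‖ : ℂ)) =
        -Complex.I * (((Z' - Z) * (starRingEnd ℂ) (Z' - Z)) / (‖Z' - Z‖ : ℂ)) := by ring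
    rw [h1, Complex.mul_conj, ← Complex.ofReal_div]
    simp
  have hlip : LipschitzWith 1 f := by
    apply LipschitzWith.of_dist_le_mul
    intro x y
    rw [NNReal.coe_one, one_mul, Real.dist_eq, ← hfsub, dist_eq_norm, hf]
    refine (Complex.abs_re_le_norm _).trans ?_
    rw [norm_mul, Complex.norm_conj, hun, mul_one]
  have hn := hnull f hlip
  -- a good line
  obtain ⟨t, ht, htL⟩ : ∃ t ∈ Ioo (0 : ℝ) δ, f Z + t ∉ f '' L := by
    by_contra hcon
    push Not at hcon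
    have h1 : Ioo (f Z) (f Z + δ) ⊆ f '' L := by
      intro x hx
      have := hcon (x - f Z) ⟨by linarith [hx.1], by linarith [hx.2]⟩
      rwa [add_sub_cancel] at this
    have h2 := measure_mono_null h1 hn
    rw [Real.volume_Ioo] at h2
    simp only [add_sub_cancel_left, ENNReal.ofReal_eq_zero] at h2
    linarith
  have hballs : ∀ W, (t • u + W) ∈ ball W δ := fun W => by
    rw [mem_ball, dist_eq_norm, add_sub_cancel_right, norm_smul, hun, mul_one,
      Real.norm_of_nonneg ht.1.le]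
    exact ht.2
  have hsub1 : ball Z δ ⊆ V \ L := (ball_subset_ball (by rw [hδ]; exact min_le_left _ _)).trans hb1
  have hsub2 : ball Z' δ ⊆ V \ L := (ball_subset_ball (by rw [hδ]; exact min_le_right _ _)).trans hb2
  have hseg : segment ℝ (t • u + Z) (t • u + Z') ⊆ V \ L := by
    intro w hw
    refine ⟨hconv.segment_subset (hsub1 (hballs Z)).1 (hsub2 (hballs Z')).1 hw, fun hwL => htL ?_⟩
    refine ⟨w, hwL, ?_⟩
    obtain ⟨a, b, ha, hb, hab, rfl⟩ := hw
    have e1 : a • (t • u + Z) + b • (t • u + Z') = (t • u + Z) + b • (Z' - Z) := by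
      have ha' : a = 1 - b := by linarith
      rw [ha']
      simp only [Complex.real_smul]
      push_cast
      ring
    rw [e1, hfadd, hfadd, hfreal, hfreal, hfd, hfu]
    ring
  refine ⟨ball Z δ ∪ segment ℝ (t • u + Z) (t • u + Z') ∪ ball Z' δ, ?_, ?_, ?_, ?_⟩
  · exact union_subset (union_subset hsub1 hseg) hsub2
  · exact Or.inl (Or.inl (mem_ball_self hδ0))
  · exact Or.inr (mem_ball_self hδ0)
  · refine IsPreconnected.union (t • u + Z') ?_ ?_ (IsPreconnected.union (t • u + Z) ?_ ?_ ?_ ?_) ?_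
    · exact Or.inr (right_mem_segment ℝ _ _)
    · exact hballs Z'
    · exact hballs Z
    · exact left_mem_segment ℝ _ _
    · exact (convex_ball Z δ).isPreconnected
    · exact (convex_segment _ _).isPreconnected
    · exact (convex_ball Z' δ).isPreconnected

theorem area {L : Set ℂ} {s : ℝ} (hne : L.Nonempty) (hP : Pack L s) {R : ℝ} (hR : 0 < R) :
    ∃ C : ℝ, 0 < C ∧ ∀ ε : ℝ, 0 < ε → ε ≤ 1 →
      volume ({z : ℂ | infDist z L < ε} ∩ ball 0 R) ≤ ENNReal.ofReal (C * ε ^ (2 - s)) := by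
  obtain ⟨C, hC, hnet⟩ := exists_net hP (show 0 < R + 1 by positivity)
  refine ⟨4 * Real.pi * C, by positivity, fun ε hε hε1 => ?_⟩
  obtain ⟨F, hF, hcov⟩ := hnet ε hε hε1
  have h1 : {z : ℂ | infDist z L < ε} ∩ ball 0 R ⊆ ⋃ p ∈ F, ball p (2 * ε) := by
    rintro z ⟨hz, hzR⟩
    obtain ⟨y, hy, hzy⟩ := (infDist_lt_iff hne).1 hz
    have hyR : y ∈ ball (0 : ℂ) (R + 1) := by
      rw [mem_ball] at hzR ⊢
      have := dist_triangle y z 0
      rw [dist_comm y z] at this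
      linarith
    obtain ⟨p, hp⟩ := mem_iUnion.1 (hcov ⟨hy, hyR⟩)
    obtain ⟨hpF, hyp⟩ := mem_iUnion.1 hp
    refine mem_iUnion.2 ⟨p, mem_iUnion.2 ⟨hpF, ?_⟩⟩
    rw [mem_ball] at hyp ⊢
    have := dist_triangle z y p
    linarith
  have hb : ∀ p : ℂ, volume (ball p (2 * ε)) = ENNReal.ofReal (4 * Real.pi * ε ^ 2) := fun p => by
    rw [Complex.volume_ball, ← ENNReal.ofReal_pow (by positivity),
      show (NNReal.pi : ENNReal) = ENNReal.ofReal Real.pi by
        rw [← NNReal.coe_real_pi, ENNReal.ofReal_coe_nnreal],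
      ← ENNReal.ofReal_mul (by positivity)]
    congr 1
    ring
  calc volume ({z : ℂ | infDist z L < ε} ∩ ball 0 R) ≤ volume (⋃ p ∈ F, ball p (2 * ε)) :=
        measure_mono h1
    _ ≤ ∑ p ∈ F, volume (ball p (2 * ε)) := measure_biUnion_finset_le _ _
    _ = ∑ p ∈ F, ENNReal.ofReal (4 * Real.pi * ε ^ 2) := by simp only [hb]
    _ = ENNReal.ofReal (F.card * (4 * Real.pi * ε ^ 2)) := by
        rw [Finset.sum_const, nsmul_eq_mul, ENNReal.ofReal_mul (Nat.cast_nonneg _),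
          ENNReal.ofReal_natCast]
    _ ≤ ENNReal.ofReal (4 * Real.pi * C * ε ^ (2 - s)) := by
        apply ENNReal.ofReal_le_ofReal
        refine (mul_le_mul_of_nonneg_right hF (by positivity)).trans (le_of_eq ?_)
        rw [one_div, Real.inv_rpow hε.le, Real.rpow_sub hε, Real.rpow_two]
        field_simp

theorem vol_zero {L : Set ℂ} {s : ℝ} (hs1 : s < 1) (hne : L.Nonempty) (hP : Pack L s) :
    volume L = 0 := by
  have key : ∀ R : ℝ, 0 < R → volume (L ∩ ball 0 R) = 0 := by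
    intro R hR
    obtain ⟨C, hC, h⟩ := area hne hP hR
    have hlim : Tendsto (fun ε : ℝ => ENNReal.ofReal (C * ε ^ (2 - s))) (𝓝[>] 0) (𝓝 0) := by
      rw [← ENNReal.ofReal_zero]
      apply ENNReal.tendsto_ofReal
      have h3 := (Real.continuousAt_rpow_const 0 (2 - s) (Or.inr (by linarith))).tendsto
      rw [Real.zero_rpow (by linarith)] at h3
      have h4 := (h3.mono_left (nhdsWithin_le_nhds (s := Ioi 0))).const_mul C
      rwa [mul_zero] at h4
    refine le_antisymm (ge_of_tendsto hlim ?_) zero_le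
    filter_upwards [Ioc_mem_nhdsGT (zero_lt_one : (0 : ℝ) < 1)] with ε hε
    refine (measure_mono ?_).trans (h ε hε.1 hε.2)
    rintro z ⟨hz, hzR⟩
    refine ⟨?_, hzR⟩
    show infDist z L < ε
    rw [infDist_zero_of_mem hz]
    exact hε.1
  have h1 : L ⊆ ⋃ n : ℕ, (L ∩ ball 0 (n + 1)) := by
    intro z hz
    obtain ⟨n, hn⟩ := exists_nat_gt ‖z‖
    refine mem_iUnion.2 ⟨n, hz, ?_⟩
    rw [mem_ball_zero_iff]
    linarith
  exact measure_mono_null h1 (measure_iUnion_null fun n => key _ (by positivity))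

theorem int (L : Set ℂ) (s : ℝ) (_hs : 0 < s) (hs1 : s < 1) (_hL : IsClosed L) (hne : L.Nonempty)
    (hP : Pack L s) : volume L = 0 ∧
      ∀ R : ℝ, IntegrableOn (fun z => (infDist z L)⁻¹) (ball 0 R) := by
  refine ⟨vol_zero hs1 hne hP, fun R => ?_⟩
  rcases le_or_gt R 0 with hR | hR
  · rw [ball_eq_empty.2 hR]
    exact integrableOn_empty
  obtain ⟨C, hC, harea⟩ := area hne hP hR
  have hmeas : Measurable fun z : ℂ => infDist z L := (continuous_infDist_pt L).measurable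
  refine ⟨hmeas.inv.aestronglyMeasurable, ?_⟩
  unfold HasFiniteIntegral
  have hset : ∀ k : ℕ, MeasurableSet {z : ℂ | infDist z L < (1 / 2) ^ k} := fun k =>
    measurableSet_lt hmeas measurable_const
  -- the pointwise bound
  have hpt : ∀ z : ℂ, ‖(infDist z L)⁻¹‖ₑ ≤ 1 + ∑' k : ℕ, ENNReal.ofReal (2 ^ (k + 2)) *
      {z : ℂ | infDist z L < (1 / 2) ^ k}.indicator 1 z := by
    intro z
    obtain ⟨d, hd⟩ : ∃ d, d = infDist z L := ⟨_, rfl⟩
    have hd0 : 0 ≤ d := hd ▸ infDist_nonneg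
    rw [← hd, Real.enorm_of_nonneg (inv_nonneg.2 hd0)]
    rcases eq_or_lt_of_le hd0 with h0 | h0
    · rw [← h0, inv_zero, ENNReal.ofReal_zero]
      exact zero_le
    rcases le_or_gt 1 d with h1 | h1
    · refine le_trans ?_ le_self_add
      rw [← ENNReal.ofReal_one]
      exact ENNReal.ofReal_le_ofReal (inv_le_one_of_one_le₀ h1)
    · obtain ⟨n, hn1, hn2⟩ := exists_nat_pow_near_of_lt_one h0 h1.le
        (show (0 : ℝ) < 1 / 2 by norm_num) (by norm_num)
      have hk : ∃ k : ℕ, d < (1 / 2) ^ k ∧ d⁻¹ ≤ 2 ^ (k + 2) := by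
        have e1 : d⁻¹ ≤ 2 ^ (n + 1) := by
          rw [inv_le_comm₀ h0 (by positivity), ← inv_pow, ← one_div]
          exact hn1.le
        rcases Nat.eq_zero_or_pos n with rfl | hn
        · refine ⟨0, by rw [pow_zero]; exact h1, e1.trans ?_⟩
          norm_num
        · refine ⟨n - 1, hn2.trans_lt ?_, e1.trans ?_⟩
          · apply pow_lt_pow_right_of_lt_one₀ (by norm_num) (by norm_num)
            omega
          · have : n - 1 + 2 = n + 1 := by omega
            rw [this]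
      obtain ⟨k, hk1, hk2⟩ := hk
      refine le_trans ?_ le_add_self
      refine le_trans ?_ (ENNReal.le_tsum k)
      have hmem : z ∈ {z : ℂ | infDist z L < (1 / 2) ^ k} := by
        show infDist z L < (1 / 2) ^ k
        rw [← hd]
        exact hk1
      rw [indicator_of_mem hmem, Pi.one_apply, mul_one]
      exact ENNReal.ofReal_le_ofReal hk2
  obtain ⟨r, hr⟩ : ∃ r : ℝ, r = 2 * (1 / 2 : ℝ) ^ (2 - s) := ⟨_, rfl⟩
  have hr0 : 0 ≤ r := by rw [hr]; positivity
  have hr1 : r < 1 := by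
    have h1 : (1 / 2 : ℝ) ^ (2 - s) < (1 / 2 : ℝ) ^ (1 : ℝ) :=
      Real.rpow_lt_rpow_of_exponent_gt (by norm_num) (by norm_num) (by linarith)
    rw [Real.rpow_one] at h1
    rw [hr]
    linarith
  have hterm : ∀ k : ℕ, ENNReal.ofReal (2 ^ (k + 2)) *
      volume ({z : ℂ | infDist z L < (1 / 2) ^ k} ∩ ball 0 R) ≤ ENNReal.ofReal (4 * C * r ^ k) := by
    intro k
    refine (mul_le_mul_right (harea ((1 / 2) ^ k) (by positivity)
      (pow_le_one₀ (by norm_num) (by norm_num))) _).trans (le_of_eq ?_)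
    rw [← ENNReal.ofReal_mul (by positivity)]
    congr 1
    have e : ((1 / 2 : ℝ) ^ k) ^ (2 - s) = ((1 / 2 : ℝ) ^ (2 - s)) ^ k := by
      rw [← Real.rpow_natCast ((1 / 2 : ℝ) ^ (2 - s)), ← Real.rpow_natCast (1 / 2 : ℝ) k,
        ← Real.rpow_mul (by norm_num), ← Real.rpow_mul (by norm_num), mul_comm]
    rw [e, hr, mul_pow, pow_add]
    ring
  calc ∫⁻ z in ball 0 R, ‖(infDist z L)⁻¹‖ₑ
      ≤ ∫⁻ z in ball 0 R, (1 + ∑' k : ℕ, ENNReal.ofReal (2 ^ (k + 2)) *
          {z : ℂ | infDist z L < (1 / 2) ^ k}.indicator 1 z) := lintegral_mono hpt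
    _ = volume (ball (0 : ℂ) R) + ∑' k : ℕ, ENNReal.ofReal (2 ^ (k + 2)) *
          volume ({z : ℂ | infDist z L < (1 / 2) ^ k} ∩ ball 0 R) := by
        rw [lintegral_add_left measurable_const, lintegral_one, Measure.restrict_apply_univ,
          lintegral_tsum fun k => ((measurable_one.indicator (hset k)).const_mul _).aemeasurable]
        congr 1
        apply tsum_congr
        intro k
        rw [lintegral_const_mul _ (measurable_one.indicator (hset k)), lintegral_indicator_one (hset k),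
          Measure.restrict_apply (hset k)]
    _ ≤ volume (ball (0 : ℂ) R) + ∑' k : ℕ, ENNReal.ofReal (4 * C * r ^ k) :=
        add_le_add_right (ENNReal.tsum_le_tsum hterm) _
    _ < ⊤ := by
        rw [ENNReal.add_lt_top]
        refine ⟨measure_ball_lt_top, ?_⟩
        rw [← ENNReal.ofReal_tsum_of_nonneg (fun k => by positivity)
          ((summable_geometric_of_lt_one hr0 hr1).mul_left _)]
        exact ENNReal.ofReal_lt_top

end Pool.Agent.J4H57.AS
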