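import Pool.Agent.J4H16.AS.Defs
import Pool.Agent.J4H57.AS.Hopf
import Pool.Agent.J4H57.AS.Thin

/-!
# Project AS of helper16: jobs HOPF, GAPD, PACK, NULL, INT, CONN (helper57)
-/

set_option autoImplicit false

namespace Pool.Agent.J4H57.AS

theorem t_HOPF : Pool.Agent.J4H16.AS.S_HOPF := fun H δ b hδ hb hH hper hd hinj =>
  hopf H δ b hδ hb hH hper hd hinj

theorem t_GAPD : Pool.Agent.J4H16.AS.S_GAPD := fun S C s hs hs1 hT => gapd S C s hs hs1 hT

theorem t_PACK : Pool.Agent.J4H16.AS.S_PACK := fun U σ S C s hs hs1 hT hσ hσ0 =>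
  pack U σ S C s hs hs1 hT hσ hσ0

theorem t_NULL : Pool.Agent.J4H16.AS.S_NULL := fun L s hs hs1 hP f hf => null L s hs hs1 hP f hf

theorem t_INT : Pool.Agent.J4H16.AS.S_INT := fun L s hs hs1 hL hne hP => int L s hs hs1 hL hne hP

theorem t_CONN : Pool.Agent.J4H16.AS.S_CONN := fun L hL hnull V hV hconv => conn L hL hnull V hV hconv

end Pool.Agent.J4H57.AS
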